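import Pool.Agent.Helper96.AW.GoalsA

/-!
# Project AW (MP_af6c86_pr), packet TD1: exponential bound for a generating polynomial
-/

namespace Pool.Agent.Helper51.AW.TD1

open Finset Pool.Agent.Helper26.AF Pool.Agent.Helper26.AL Pool.Agent.Helper96.AW

theorem core (a w : ℕ → ℝ) (ha : ∀ m, 0 ≤ a m) (hw : ∀ k, 0 ≤ w k) (h0 : a 0 = 1)
    (hrec : ∀ m : ℕ, (m : ℝ) * a m =
      ∑ k ∈ Icc 1 m, (m.choose k : ℝ) * (k * w k) * a (m - k))
    (n : ℕ) (z : ℝ) (hz : 0 ≤ z) :
    ∑ m ∈ range (n + 1), a m * z ^ m / (m.factorial : ℝ)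
      ≤ Real.exp (∑ k ∈ Icc 1 n, w k * z ^ k / (k.factorial : ℝ)) := by
  set P : ℝ → ℝ := fun z => ∑ m ∈ range (n + 1), a m * z ^ m / (m.factorial : ℝ) with hP
  set W : ℝ → ℝ := fun z => ∑ k ∈ Icc 1 n, w k * z ^ k / (k.factorial : ℝ) with hW
  have dP : ∀ z, HasDerivAt P
      (∑ m ∈ range (n + 1), a m * ((m : ℝ) * z ^ (m - 1)) / (m.factorial : ℝ)) z := by
    intro z
    refine HasDerivAt.fun_sum fun m _ => ?_
    exact ((hasDerivAt_pow m z).const_mul (a m)).div_const _
  have dW : ∀ z, HasDerivAt W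
      (∑ k ∈ Icc 1 n, w k * ((k : ℝ) * z ^ (k - 1)) / (k.factorial : ℝ)) z := by
    intro z
    refine HasDerivAt.fun_sum fun m _ => ?_
    exact ((hasDerivAt_pow m z).const_mul (w m)).div_const _
  have key : ∀ z : ℝ, 0 ≤ z →
      ∑ m ∈ range (n + 1), a m * ((m : ℝ) * z ^ (m - 1)) / (m.factorial : ℝ) ≤
      (∑ k ∈ Icc 1 n, w k * ((k : ℝ) * z ^ (k - 1)) / (k.factorial : ℝ)) * P z := by
    intro z hz
    set G : ℕ → ℝ := fun k => w k * ((k : ℝ) * z ^ (k - 1)) / (k.factorial : ℝ) with hG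
    set H : ℕ → ℝ := fun j => a j * z ^ j / (j.factorial : ℝ) with hH
    have hG0 : ∀ k, 0 ≤ G k := fun k => by have := hw k; positivity
    have hH0 : ∀ k, 0 ≤ H k := fun k => by have := ha k; positivity
    have e1 : ∑ m ∈ range (n + 1), a m * ((m : ℝ) * z ^ (m - 1)) / (m.factorial : ℝ) =
        ∑ m ∈ Icc 1 n, ∑ k ∈ Icc 1 m, G k * H (m - k) := by
      have s1 : ∑ m ∈ range (n + 1), a m * ((m : ℝ) * z ^ (m - 1)) / (m.factorial : ℝ) =
          ∑ m ∈ Icc 1 n, a m * ((m : ℝ) * z ^ (m - 1)) / (m.factorial : ℝ) := by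
        symm
        apply Finset.sum_subset
        · intro m hm
          rw [mem_Icc] at hm
          rw [mem_range]; omega
        · intro m hm hm'
          rw [mem_range] at hm
          rw [mem_Icc] at hm'
          have : m = 0 := by omega
          subst this
          simp
      rw [s1]
      refine Finset.sum_congr rfl fun m hm => ?_
      rw [show a m * ((m : ℝ) * z ^ (m - 1)) / (m.factorial : ℝ) =
        ((m : ℝ) * a m) * (z ^ (m - 1) / (m.factorial : ℝ)) by ring, hrec m, Finset.sum_mul]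
      refine Finset.sum_congr rfl fun k hk => ?_
      rw [mem_Icc] at hk
      have hc : (m.choose k : ℝ) * ((k.factorial : ℝ) * ((m - k).factorial : ℝ)) =
          (m.factorial : ℝ) := by
        have := Nat.choose_mul_factorial_mul_factorial hk.2
        exact_mod_cast (by rw [← this]; ring : m.choose k * (k.factorial * (m - k).factorial) =
          m.factorial)
      have hzp : z ^ (m - 1) = z ^ (k - 1) * z ^ (m - k) := by
        rw [← pow_add]; congr 1; omega
      have f1 : (k.factorial : ℝ) ≠ 0 := by positivity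
      have f2 : ((m - k).factorial : ℝ) ≠ 0 := by positivity
      have f3 : (m.factorial : ℝ) ≠ 0 := by positivity
      simp only [hG, hH]
      rw [hzp, div_mul_div_comm, ← mul_div_assoc, div_eq_div_iff f3 (mul_ne_zero f1 f2), ← hc]
      ring
    rw [e1]
    have e2 : ∑ m ∈ Icc 1 n, ∑ k ∈ Icc 1 m, G k * H (m - k) =
        ∑ k ∈ Icc 1 n, ∑ m ∈ Icc k n, G k * H (m - k) := by
      apply Finset.sum_comm'
      intro m k
      simp only [mem_Icc]
      constructor
      · rintro ⟨⟨h1, h2⟩, h3, h4⟩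
        exact ⟨⟨h4, h2⟩, h3, by omega⟩
      · rintro ⟨⟨h1, h2⟩, h3, h4⟩
        exact ⟨⟨by omega, h2⟩, h3, h1⟩
    rw [e2, Finset.sum_mul]
    refine Finset.sum_le_sum fun k hk => ?_
    rw [← Finset.mul_sum]
    refine mul_le_mul_of_nonneg_left ?_ (hG0 k)
    have e3 : ∑ m ∈ Icc k n, H (m - k) = ∑ j ∈ (Icc k n).image (fun m => m - k), H j := by
      rw [Finset.sum_image]
      intro x hx y hy hxy
      simp only [coe_Icc, Set.mem_Icc] at hx hy
      simp only at hxy
      omega
    rw [e3]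
    refine Finset.sum_le_sum_of_subset_of_nonneg ?_ fun j _ _ => hH0 j
    intro j hj
    rw [mem_image] at hj
    obtain ⟨m, hm, rfl⟩ := hj
    rw [mem_Icc] at hm
    rw [mem_range]
    omega
  -- the product `P e^(-W)` is antitone
  have dQ : ∀ z, HasDerivAt (fun z => P z * Real.exp (-W z))
      ((∑ m ∈ range (n + 1), a m * ((m : ℝ) * z ^ (m - 1)) / (m.factorial : ℝ)) *
        Real.exp (-W z) + P z * (Real.exp (-W z) *
        -(∑ k ∈ Icc 1 n, w k * ((k : ℝ) * z ^ (k - 1)) / (k.factorial : ℝ)))) z := fun z =>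
    (dP z).mul ((dW z).neg.exp)
  have hanti : AntitoneOn (fun z => P z * Real.exp (-W z)) (Set.Ici 0) := by
    apply antitoneOn_of_deriv_nonpos (convex_Ici 0)
    · exact fun z _ => (dQ z).continuousAt.continuousWithinAt
    · exact fun z _ => (dQ z).differentiableAt.differentiableWithinAt
    · intro z hz
      rw [interior_Ici, Set.mem_Ioi] at hz
      rw [(dQ z).deriv]
      have h1 := key z hz.le
      have h2 := Real.exp_pos (-W z)
      nlinarith [mul_le_mul_of_nonneg_right h1 h2.le]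
  have h1 := hanti (Set.mem_Ici.mpr le_rfl) (Set.mem_Ici.mpr hz) hz
  have hP0 : P 0 = 1 := by
    simp only [hP]
    rw [Finset.sum_range_succ']
    simp [h0]
  have hW0 : W 0 = 0 := by
    simp only [hW]
    refine Finset.sum_eq_zero fun k hk => ?_
    rw [mem_Icc] at hk
    rw [zero_pow (by omega)]
    simp
  simp only [hP0, hW0, neg_zero, Real.exp_zero, mul_one] at h1
  have h2 : P z * Real.exp (-W z) * Real.exp (W z) ≤ 1 * Real.exp (W z) :=
    mul_le_mul_of_nonneg_right h1 (Real.exp_pos _).le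
  rw [mul_assoc, ← Real.exp_add, neg_add_cancel, Real.exp_zero, mul_one, one_mul] at h2
  exact h2

theorem t : S_TD1 := by
  intro hTC u z L n hu hz
  classical
  refine core (XL u L) (wk u L) ?_ ?_ ?_ (hTC u L) n z hz
  · intro m
    unfold XL
    refine Finset.sum_nonneg fun G _ => ?_
    split_ifs
    · positivity
    · exact le_rfl
  · intro k
    unfold wk
    refine add_nonneg ?_ (by positivity)
    split_ifs
    · positivity
    · exact le_rfl
  · unfold XL
    rw [Fintype.sum_eq_single (⊥ : SimpleGraph (Fin 0)) (fun G hG => absurd (Subsingleton.elim G ⊥) hG)]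
    rw [if_pos]
    · have : ne (⊥ : SimpleGraph (Fin 0)) = 0 := by
        unfold ne
        rw [SimpleGraph.edgeSet_bot]
        simp
      rw [this, pow_zero]
    · rintro Q ⟨c, -⟩
      exact (c.ind (fun v => v.elim0) : False).elim

end Pool.Agent.Helper51.AW.TD1
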